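import Pool.Agent.L7h48.SM.FinA

set_option autoImplicit false

/-!
# Invariant sets of the standard map have boundaries of length `exp (c a²)`

Let `S_a (x, y) = (2x - y + a sin 2πx, x)` on the torus, with `|a| ≥ 256` (NO parameter is excluded).
Ergodicity (part of the conjecture of Sinai) says that an invariant set has area `0` or `1`. Here: an
invariant set whose area lies in `[η, 1 - η]` has a boundary of length at least
`exp ((η - 42 / √|a|) a² / 75) - 1`; more precisely its boundary is so wild that the neighbourhood of
radius `|a| ^ (-n / 3)` of the boundary has area at least `η - 25 n log |a| / a² - 37 / √|a|`, for all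
`n`; and the map is mixing down to the scale `|a| ^ (-n / 3)` up to times `n` of order `a² / log |a|`,
outside a set of area `25 n log |a| / a² + 37 / √|a|`.

(The result `LongBoundaries` of this folder has the error `3 n / |a| + 4 / √|a|`, so that it stops at
times of order `|a|`, at the scale `exp (- c |a| log |a|)`.)

The improvement comes from allowing small values of the derivatives `V_j = 2 + 2πa cos 2πx_j` along
the orbit, as long as the products `V_j V_(j+1)` of two consecutive ones are not small.
-/

open Real MeasureTheory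
open scoped ENNReal

namespace Pool.Agent.Results.MP_9ee088_an.ExponentialBoundaries

/-- The torus `ℝ² / ℤ²`, with its Lebesgue measure `volume` and the sup distance. -/
abbrev Torus := UnitAddCircle × UnitAddCircle

/-- `T` is the standard map `S_a` of the torus. -/
def IsStandardMap (a : ℝ) (T : Torus → Torus) : Prop :=
  ∀ x y : ℝ, T ((x : UnitAddCircle), (y : UnitAddCircle)) =
    (((2 * x - y + a * sin (2 * π * x) : ℝ) : UnitAddCircle), (x : UnitAddCircle))

/-- The error `25 n log |a| / a² + 37 / √|a|`. -/
noncomputable def err (a : ℝ) (n : ℕ) : ℝ := 25 * n * log |a| / a ^ 2 + 37 / √|a|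

/-- The scale `|a| ^ (-n / 3)`. -/
noncomputable def scale (a : ℝ) (n : ℕ) : ℝ := |a| ^ (-(n : ℝ) / 3)

/-- The area of the invariant set `A`, and of its complement, is at least `η`. -/
structure InvariantBetween (T : Torus → Torus) (η : ℝ) (A : Set Torus) : Prop where
  invariant : T ⁻¹' A = A
  area : ENNReal.ofReal η ≤ volume A
  areaCompl : ENNReal.ofReal η ≤ volume Aᶜ

/-- **Invariant sets and finite-scale mixing of the standard map, for every parameter
`|a| ≥ 256`.** -/
theorem result (a : ℝ) (ha : 256 ≤ |a|) (T : Torus → Torus) (hT : IsStandardMap a T) :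
    -- (1) the boundary of an invariant set, at the scales `|a| ^ (-n / 3)`
    (∀ (η : ℝ) (A : Set Torus), InvariantBetween T η A → ∀ n : ℕ, 1 ≤ n →
      ENNReal.ofReal η ≤ ENNReal.ofReal (err a n) +
        volume (Metric.cthickening (scale a n) (frontier A))) ∧
    -- (2) the length of the boundary of an invariant set
    (∀ (η : ℝ) (A : Set Torus), InvariantBetween T η A →
      ENNReal.ofReal (exp ((η - 42 / √|a|) * a ^ 2 / 75)) ≤
        1 + Measure.hausdorffMeasure 1 (frontier A)) ∧
    -- (3) mixing at the scales `|a| ^ (-n / 3)`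
    (∃ P Q : ℕ → Set Torus,
      (∀ n, 1 ≤ n → MeasurableSet (P n) ∧ MeasurableSet (Q n) ∧
        volume (P n)ᶜ ≤ ENNReal.ofReal (err a n) ∧ volume (Q n)ᶜ ≤ ENNReal.ofReal (err a n)) ∧
      ∀ n m, 1 ≤ n → 1 ≤ m → ∀ p ∈ P n, ∀ q ∈ Q m, ∃ p' q' : Torus,
        dist p p' ≤ scale a n ∧ dist q q' ≤ scale a m ∧ T^[n + m] p' = q') := by
  have hTS : T = TH705.SM.S a := TH705.SM.eq_S a T hT
  rw [hTS]
  refine ⟨?_, ?_, ?_⟩
  · intro η A hA n hn
    have h := (L7h48.SM.covA ha).alt_thick hn hA.invariant hA.area hA.areaCompl
    exact h.trans (add_le_add (L7h48.SM.vol_bdA ha hn) le_rfl)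
  · intro η A hA
    exact L7h48.SM.lengthA ha hA.invariant hA.area hA.areaCompl
  · refine ⟨fun n => (toMeasurable volume (L7h48.SM.bdA a n))ᶜ,
      fun n => Prod.swap ⁻¹' (toMeasurable volume (L7h48.SM.bdA a n))ᶜ, ?_, ?_⟩
    · intro n hn
      have h1 : volume (L7h48.SM.bdA a n) ≤ ENNReal.ofReal (err a n) := L7h48.SM.vol_bdA ha hn
      refine ⟨(measurableSet_toMeasurable _ _).compl,
        (measurableSet_toMeasurable _ _).compl.preimage measurable_swap, ?_, ?_⟩
      · rw [compl_compl, measure_toMeasurable]
        exact h1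
      · rw [← Set.preimage_compl, compl_compl, Y332.SM.vol_swap, measure_toMeasurable]
        exact h1
    · intro n m hn hm p hp q hq
      exact (L7h48.SM.covA ha).mixing hn hm
        (fun h => hp (subset_toMeasurable _ _ h)) (fun h => hq (subset_toMeasurable _ _ h))

end Pool.Agent.Results.MP_9ee088_an.ExponentialBoundaries
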