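import Pool.Agent.L7h48.SM.HypA

set_option autoImplicit false

/-!
# Uniform hyperbolicity of the standard map up to times `|a|^2 / log |a|`, for every parameter

`F_a(x, y) = (2x - y + a sin 2πx, x)` is the lift to the plane of the standard map `S_a`. For every
`a` with `|a| ≥ 4` (NO parameter is excluded), every `δ ≤ 1` and every `N ≥ 1`, outside a set
of area at most `19 log |a| (|a|^(-δ) + N / a²)` of the unit square, the derivative of `F_a^n` grows
at least like `|a|^((1 - δ) n)` for ALL times `n = 1, …, N`; so does already its entry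
`∂x_n/∂x_0`. So the hyperbolicity predicted by the conjecture of Sinai is seen at most points, in
every time window of length `o(a² / log |a|)`.

The proof: if the product of the derivatives `V_j = 2 + 2πa cos 2πx_j` at two consecutive times is at
least four in absolute value all along the orbit, then `|∂x_n/∂x_0| ≥ ∏ |V_j| / 2`; the two
coordinates of a point are independent, so this fails at a given time with probability of order
`log |a| / a²`; and the maximal ergodic inequality for `|V|^(-s)` controls the products.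
-/

open Real MeasureTheory

namespace Pool.Agent.Results.MP_9ee088_an.FiniteTimeHyperbolicity

/-- The lift `(x, y) ↦ (2 x - y + a sin 2 π x, x)` of `S_a` to the plane. -/
noncomputable def planeMap (a : ℝ) (p : ℝ × ℝ) : ℝ × ℝ :=
  (2 * p.1 - p.2 + a * sin (2 * π * p.1), p.1)

/-- The modulus of `∂x_n/∂x_0`, where `(x_n, y_n)` is the `n`-th point of the orbit of
`p = (x_0, y_0)`. -/
noncomputable def entry (a : ℝ) (n : ℕ) (p : ℝ × ℝ) : ℝ :=
  |deriv (fun t => ((planeMap a)^[n] (t, p.2)).1) p.1|

/-- At time `n` the derivative of the `n`-th iterate at `p`, and already its first entry, is at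
least `|a| ^ ((1 - δ) n)`. -/
def Expands (a δ : ℝ) (n : ℕ) (p : ℝ × ℝ) : Prop :=
  |a| ^ ((1 - δ) * n) ≤ entry a n p ∧ entry a n p ≤ ‖fderiv ℝ ((planeMap a)^[n]) p‖

/-- **Finite-time hyperbolicity, for every parameter.** -/
theorem result (a : ℝ) (ha : 4 ≤ |a|) (δ : ℝ) (hδ1 : δ ≤ 1) (N : ℕ) (hN : 1 ≤ N) :
    volume {p : ℝ × ℝ | p ∈ Set.Ioc (0:ℝ) 1 ×ˢ Set.Ioc (0:ℝ) 1 ∧
      ∃ n : ℕ, 1 ≤ n ∧ n ≤ N ∧ ¬ Expands a δ n p} ≤
    ENNReal.ofReal (19 * log |a| * (|a| ^ (-δ) + N / a ^ 2)) := by
  have hla : 0 < log |a| := Real.log_pos (by linarith)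
  have hla2 : 1.386 ≤ log |a| := by
    have hl2 := Real.log_two_gt_d9
    have h4 : log 4 ≤ log |a| := Real.log_le_log (by norm_num) ha
    have h5 : log (4:ℝ) = 2 * log 2 := by
      have : (4:ℝ) = 2 ^ 2 := by norm_num
      rw [this, Real.log_pow]
      norm_num
    linarith
  have hσ : 0 < 1 - 1 / (2 * log |a|) := by
    rw [sub_pos, div_lt_one (by positivity)]
    linarith
  refine le_trans (measure_mono ?_) ((L7h48.SM.square_le _).trans (L7h48.SM.vol_all ha hδ1 hN))
  rintro ⟨t, s⟩ ⟨hp, n, hn, hnN, hE⟩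
  refine ⟨hp, ?_⟩
  by_contra hcon
  rw [Set.mem_union, not_or] at hcon
  apply hE
  have e : entry a n (t, s) = |TH705.SM.D a s (n + 1) t| := by
    unfold entry
    have h1 : (fun u => ((planeMap a)^[n] (u, (t, s).2)).1) = TH705.SM.X a s (n + 1) := by
      funext u
      show ((L7h48.SM.PM a)^[n] (u, s)).1 = _
      rw [L7h48.SM.PM_iter]
    rw [h1]
    show |deriv (TH705.SM.X a s (n + 1)) t| = _
    rw [(TH705.SM.X_hasDeriv a s (n + 1) t).deriv]
  refine ⟨?_, ?_⟩
  · rw [e]
    exact L7h48.SM.growth_torus ha hσ hcon.1 hcon.2 hn hnN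
  · rw [e]
    exact L7h48.SM.norm_ge a t s n

end Pool.Agent.Results.MP_9ee088_an.FiniteTimeHyperbolicity
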