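import Pool.Agent.L7h48.SM.SpecE

set_option autoImplicit false

/-!
# Gapless specification of the standard map at exponentially small scales, for every parameter

Let `S_a (x, y) = (2x - y + a sin 2πx, x)` on the torus, with `|a| ≥ 256` (NO parameter is excluded),
and let `N ≥ 1`, `δ ≤ 1/2`. Outside a set of area `60 log |a| (|a|^(-δ) + N / a²)` all orbit segments
of length `N` can be concatenated: for EVERY bi-infinite sequence `q_j` of points of the good set there
is an orbit `z` which follows the segment `q_j, T q_j, …, T^(N-1) q_j` during the times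
`N j, …, N j + N - 1`, one segment directly after the other, without any gap. At the distance `d` from
the two ends of a segment the error is at most `|a|^(-(1-δ) d)`. The orbit `z` is uniformly hyperbolic
for all (infinite) time: for all `m ≥ N` the derivative of `T^m` has norm at least `|a|^((1-δ) m)` at
all points of `z`; it is periodic if the sequence is (a saddle of period `N` for a constant sequence).

So for `N = o(a² / log |a|)` the torus is, up to a set of small area, filled by uniformly
hyperbolic orbits with the coding of a full shift, at scales down to `exp (- c a²)`: from nearly every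
point to nearly every point, in every prescribed order. Nothing is proved about positive area.

The proof: the orbits are the solutions of `x_(k+1) + x_(k-1) = 2 x_k + a sin 2πx_k + n_k`, `n_k`
integers; at the concatenated segments the equations fail by at most `1/2`, at the junctions only.
The linearisation has the diagonal entries `V_k = 2 + 2πa cos 2πx_k`, which may be small (resonances);
but if `|V_k V_(k+1)| ≥ 64` always, then the products of the numbers `8 / |V_k|`, taken from the
junctions, are weights for which it is diagonally dominant, and a fixed point exists.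
-/

open Real MeasureTheory
open scoped ENNReal

namespace Pool.Agent.Results.MP_9ee088_an.GaplessSpecification

/-- The torus `ℝ² / ℤ²`, with its Lebesgue measure `volume` and the sup distance. -/
abbrev Torus := UnitAddCircle × UnitAddCircle

/-- `T` is the standard map `S_a` of the torus. -/
def IsStandardMap (a : ℝ) (T : Torus → Torus) : Prop :=
  ∀ x y : ℝ, T ((x : UnitAddCircle), (y : UnitAddCircle)) =
    (((2 * x - y + a * sin (2 * π * x) : ℝ) : UnitAddCircle), (x : UnitAddCircle))

/-- The lift `(x, y) ↦ (2 x - y + a sin 2 π x, x)` of `S_a` to the plane. -/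
noncomputable def planeMap (a : ℝ) (p : ℝ × ℝ) : ℝ × ℝ :=
  (2 * p.1 - p.2 + a * sin (2 * π * p.1), p.1)

/-- The derivative of `S_a^m` at the point `z` of the torus (that is, of the `m`-th iterate of the lift
`planeMap a` at every point of the plane over `z`) has norm at least `|a| ^ ((1 - δ) m)`. -/
def Expands (a δ : ℝ) (m : ℕ) (z : Torus) : Prop :=
  ∀ p : ℝ × ℝ, ((p.1 : UnitAddCircle), (p.2 : UnitAddCircle)) = z →
    |a| ^ ((1 - δ) * m) ≤ ‖fderiv ℝ ((planeMap a)^[m]) p‖

/-- **Gapless specification of the standard map, for every parameter `|a| ≥ 256`.** -/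
theorem result (a δ : ℝ) (ha : 256 ≤ |a|) (hδ : δ ≤ 1 / 2) (T : Torus → Torus)
    (hT : IsStandardMap a T) (N : ℕ) (hN : 1 ≤ N) :
    ∃ G : Set Torus, MeasurableSet G ∧
      volume Gᶜ ≤ ENNReal.ofReal (60 * log |a| * (|a| ^ (-δ) + N / a ^ 2)) ∧
      ∀ q : ℤ → Torus, (∀ j, q j ∈ G) → ∃ z : ℤ → Torus,
        -- `z` is an orbit
        (∀ k, T (z k) = z (k + 1)) ∧
        -- it follows the segments of length `N` starting at the points `q j`
        (∀ (j : ℤ) (i : ℕ), i < N →
          dist (z (N * j + i)) (T^[i] (q j)) ≤ |a| ^ (-((1 - δ) * (min i (N - i) : ℕ)))) ∧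
        -- it is uniformly hyperbolic
        (∀ (k : ℤ) (m : ℕ), N ≤ m → Expands a δ m (z k)) ∧
        -- it is periodic if the sequence of the segments is
        ∀ P : ℤ, (∀ j, q (j + P) = q j) → ∀ k, z (k + N * P) = z k := by
  have ha0 : 0 < |a| := by linarith
  have hTS : T = TH705.SM.S a := TH705.SM.eq_S a T hT
  rw [hTS]
  refine ⟨(toMeasurable volume (L7h48.SM.bdS a δ N))ᶜ, (measurableSet_toMeasurable _ _).compl, ?_, ?_⟩
  · rw [compl_compl, measure_toMeasurable]
    exact L7h48.SM.vol_bdS ha hδ N
  intro q hq
  have hB : ∀ j, L7h48.SM.Blk a δ (L7h48.SM.wq a (q j)) N := fun j =>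
    L7h48.SM.blk_of ha hN (fun h => hq j (subset_toMeasurable _ _ h))
  obtain ⟨x, hx1, hx2, hx3⟩ := L7h48.SM.concat ha hδ hN q hB
  refine ⟨fun k => ((x k : UnitAddCircle), (x (k - 1) : UnitAddCircle)), ?_, ?_, ?_, ?_⟩
  · intro k
    simp only
    rw [TH705.SM.S_coe, hx1 k, add_sub_cancel_right]
  · have hg1 : (|a| ^ (1 - δ))⁻¹ ≤ 1 := by
      have h3 : (16:ℝ) ≤ √|a| := by
        apply Real.le_sqrt_of_sq_le
        linarith
      exact inv_le_one_of_one_le₀ (by linarith [L7h48.SM.rate_ge (δ := δ) ha hδ])
    have hg0 : 0 ≤ (|a| ^ (1 - δ))⁻¹ := by positivity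
    have hconv : ∀ n : ℕ, ((|a| ^ (1 - δ))⁻¹) ^ n = |a| ^ (-((1 - δ) * n)) := by
      intro n
      rw [Real.rpow_neg ha0.le, inv_pow, ← Real.rpow_natCast, ← Real.rpow_mul ha0.le]
    have hd : ∀ (s t : ℝ), dist (s : UnitAddCircle) (t : UnitAddCircle) ≤ |s - t| := by
      intro s t
      rw [dist_eq_norm, ← AddCircle.coe_sub]
      exact Y332.SM.norm_coe_le _
    intro j i hi
    rw [← hconv, Prod.dist_eq]
    simp only
    rcases Nat.eq_zero_or_pos i with hi0 | hi0
    · subst hi0
      rw [Nat.zero_min, pow_zero]
      have hhalf : ∀ s t : UnitAddCircle, dist s t ≤ 1 := by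
        intro s t
        rw [dist_eq_norm]
        have := AddCircle.norm_le_half_period (1:ℝ) (x := s - t) one_ne_zero
        rw [abs_one] at this
        linarith
      exact max_le (hhalf _ _) (hhalf _ _)
    · obtain ⟨t, ht1, ht2, -⟩ := hx2 j i hi
      obtain ⟨t', ht1', ht2', -⟩ := hx2 j (i - 1) (by omega)
      apply max_le
      · rw [← ht1]
        refine (hd _ _).trans (ht2.trans ?_)
        exact pow_le_pow_of_le_one hg0 hg1 (by omega)
      · rw [L7h48.SM.iter_snd a hi0, ← ht1', L7h48.SM.idx_pred j hi0]
        refine (hd _ _).trans (ht2'.trans ?_)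
        exact pow_le_pow_of_le_one hg0 hg1 (by omega)
  · intro k m hm p hp
    simp only [Prod.mk.injEq] at hp
    have h1 := L7h48.SM.growth_concat ha hN q hB hx1
      (fun j i hi => (hx2 j i hi).choose_spec.2.2) k hm hp.1 hp.2
    have h2 := L7h48.SM.norm_ge a p.1 p.2 m
    rw [Real.rpow_mul ha0.le, Real.rpow_natCast]
    exact h1.trans h2
  · intro P hP k
    simp only
    rw [hx3 P hP k]
    have e : k + N * P - 1 = k - 1 + N * P := by ring
    rw [e, hx3 P hP (k - 1)]

end Pool.Agent.Results.MP_9ee088_an.GaplessSpecification
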